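import Pool.Agent.H760.AR.Stm2
import Pool.Graph.R_pool_sql_team_seeded_3997aac3.Q176.HX.LPXA

/-!
# AR-Q: the exponent is in the class
-/

set_option autoImplicit false

namespace Pool.Agent.H653.AR.Q

open Finset Filter Topology MeasureTheory
open Pool.Agent.Q99.KN (bb ct St LC S_LC)
open Pool.Agent.Q99.HT
open Pool.Agent.Q99.HU.Q239
open Pool.Agent.Q176.HX
open Pool.Agent.Y472.L (pI Jt)
open Pool.Agent.H760.AR

section gen

variable {ι : Type} [Fintype ι] {E : Subfield ℂ} {κ : ℂ} {m : ℤ}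

theorem jj_add (hκ : κ ≠ 0) {f g : (ι → ℂ) → ℂ} {k : ℕ} (hf : JJ E κ m k f) (hg : JJ E κ m k g) :
    JJ E κ m k (fun v => f v + g v) :=
  (Pool.Agent.Y904.TA.jta ι E κ ((0 : ι → ℂ), (0 : ℂ)) hκ).2.2.1 m k _ _ hf hg

theorem jj_cmul (hκ : κ ≠ 0) {f : (ι → ℂ) → ℂ} {k : ℕ} {c : ℂ} (hc : c ∈ E)
    (hf : JJ E κ m k f) : JJ E κ m k (fun v => c * f v) :=
  (Pool.Agent.Y904.TA.jta ι E κ ((0 : ι → ℂ), (0 : ℂ)) hκ).2.2.2.1 m k _ c hc hf

theorem jj_sub (hκ : κ ≠ 0) {f g : (ι → ℂ) → ℂ} {k : ℕ} (hf : JJ E κ m k f) (hg : JJ E κ m k g) :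
    JJ E κ m k (fun v => f v - g v) := by
  have h := jj_add hκ hf (jj_cmul hκ (E.neg_mem E.one_mem) hg)
  have e : (fun v => f v - g v) = fun v => f v + -1 * g v := by
    funext v
    ring
  rw [e]
  exact h

theorem jj_const (hκ : κ ≠ 0) (c : ℂ) : JJ E κ m 2 (fun _ : ι → ℂ => c) :=
  (Pool.Agent.Y904.TA.jta ι E κ ((0 : ι → ℂ), (0 : ℂ)) hκ).2.2.2.2.2.2.2.1 m 1 2 _ (by norm_num)
    ((Pool.Agent.Y904.TA.jta ι E κ ((0 : ι → ℂ), (0 : ℂ)) hκ).2.1 c m)

theorem jj_sum (hκ : κ ≠ 0) {σ : Type} (s : Finset σ) (f : σ → (ι → ℂ) → ℂ)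
    (h : ∀ i ∈ s, JJ E κ m 2 (f i)) : JJ E κ m 2 (fun v => ∑ i ∈ s, f i v) := by
  classical
  induction s using Finset.induction_on with
  | empty =>
    simp only [Finset.sum_empty]
    exact jj_const hκ 0
  | insert a s ha ih =>
    have e : (fun v => ∑ i ∈ insert a s, f i v) = fun v => f a v + ∑ i ∈ s, f i v := by
      funext v
      rw [Finset.sum_insert ha]
    rw [e]
    exact jj_add hκ (h a (Finset.mem_insert_self a s))
      (ih fun i hi => h i (Finset.mem_insert_of_mem hi))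

theorem lin_zero (ℓ : ι → ℚ) : lin ℓ (0 : ι → ℂ) = 0 := by
  unfold lin
  simp

theorem sin_ne {x : ℂ} (hx : x ∈ St) : Complex.sin (Real.pi * x) ≠ 0 := by
  rw [Complex.sin_ne_zero_iff]
  intro k hk
  have hpi : (Real.pi : ℂ) ≠ 0 := by exact_mod_cast Real.pi_ne_zero
  have h1 : x = (k : ℂ) := by
    apply mul_left_cancel₀ hpi
    rw [hk, mul_comm]
  have h2 := hx.1
  have h3 := hx.2
  rw [h1, Complex.intCast_re] at h2 h3
  have h4 : 0 < k := by exact_mod_cast h2
  have h5 : k < 1 := by exact_mod_cast h3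
  omega

theorem jj_LC (hT2 : S_T2) (hLC : S_LC) (hκ : κ ≠ 0) {g : (ι → ℂ) → ℂ} (hg : Af E g)
    (h0 : g 0 ∈ St) : JJ E κ (-1) 2 (fun v => LC (g v)) := by
  obtain ⟨x, ℓ, hx, hgx⟩ := hg
  have hx0 : g 0 = x := by
    rw [hgx, lin_zero, add_zero]
  rw [hx0] at h0
  have h := (hT2 bb LC (fun y hy => hLC.1 y hy) (fun y hy => hLC.2.2.2.1 y hy) ι E κ hκ x ℓ hx
    (sin_ne h0)).2.2 h0
  have e : (fun v => LC (g v)) = fun v => LC (x + lin ℓ v) := by
    funext v
    rw [hgx]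
  rw [e]
  exact h.2

end gen

variable {c d : ℕ}

theorem af_cZ (X : Nw c d) (T : Fin d → ℂ) (J ζ : Fin c → ℂ) (E : Subfield ℂ)
    (hG : Gn X T J ζ E) (s : Fin c) : Af E (fun v : X.Ix → ℂ => cZ X ζ v s / 2) := by
  refine ⟨ζ s / 2, Sum.elim (fun _ => 0) (Sum.elim (fun _ => 0)
    (fun s' => if s' = s then 1 / 2 else 0)), (hG s).1, ?_⟩
  intro v
  unfold cZ lin
  rw [Fintype.sum_sum_type, Fintype.sum_sum_type]
  simp only [Sum.elim_inl, Sum.elim_inr]
  simp only [Rat.cast_zero, zero_mul, Finset.sum_const_zero, zero_add]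
  rw [Finset.sum_eq_single s]
  · rw [if_pos rfl]
    push_cast
    ring
  · intro b _ hb
    rw [if_neg hb]
    simp
  · intro h
    exact absurd (Finset.mem_univ s) h

theorem af_x (X : Nw c d) (T : Fin d → ℂ) (E : Subfield ℂ) (s : Fin c) (i : Fin 3)
    (hG : Complex.exp (pI * X.x T s i) ∈ E) : Af E (fun v : X.Ix → ℂ => X.x (cT X T v) s i) := by
  refine ⟨X.x T s i, Sum.elim (fun j => (X.E j s i : ℚ)) (fun _ => 0), hG, ?_⟩
  intro v
  unfold Nw.x cT lin
  rw [Fintype.sum_sum_type]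
  simp only [Sum.elim_inl, Sum.elim_inr]
  simp only [Rat.cast_zero, zero_mul, Finset.sum_const_zero, add_zero]
  rw [add_assoc, ← Finset.sum_add_distrib]
  congr 1
  apply Finset.sum_congr rfl
  intro j _
  push_cast
  ring

theorem af_cJ (X : Nw c d) (J : Fin c → ℂ) (E : Subfield ℂ) (s : Fin c)
    (hG : Complex.exp (pI * J s) ∈ E) : Af E (fun v : X.Ix → ℂ => cJ X J v s) := by
  by_cases h : X.α s 1 ≠ 0
  · classical
    refine ⟨J s, Sum.elim (fun _ => 0) (Sum.elim
      (fun s' => if s' = (⟨s, h⟩ : {s : Fin c // X.α s 1 ≠ 0}) then 1 else 0) (fun _ => 0)),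
      hG, ?_⟩
    intro v
    unfold cJ cb lin
    beta_reduce
    rw [dif_pos h, Fintype.sum_sum_type, Fintype.sum_sum_type]
    simp only [Sum.elim_inl, Sum.elim_inr]
    simp only [Rat.cast_zero, zero_mul, Finset.sum_const_zero, zero_add, add_zero]
    rw [Finset.sum_eq_single (⟨s, h⟩ : {s : Fin c // X.α s 1 ≠ 0})]
    · rw [if_pos rfl]
      push_cast
      ring
    · intro b _ hb
      rw [if_neg hb]
      simp
    · intro h'
      exact absurd (Finset.mem_univ _) h'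
  · refine ⟨J s, fun _ => 0, hG, ?_⟩
    intro v
    unfold cJ lin
    beta_reduce
    rw [cb_zero X v (not_not.1 h)]
    simp

theorem af_v (X : Nw c d) (T : Fin d → ℂ) (J ζ : Fin c → ℂ) (E : Subfield ℂ)
    (hG : Gn X T J ζ E) (s : Fin c) (k : Fin 4) :
    Af E (fun v : X.Ix → ℂ => X.v (cT X T v) (cJ X J v) s k) := by
  have h := (hG s).2 k
  fin_cases k
  · exact af_x X T E s 0 h
  · exact af_x X T E s 1 h
  · exact af_x X T E s 2 h
  · exact af_cJ X J E s h

theorem tQ : S_Q := by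
  intro hE1 hT2 hT2b hLC c d X r κ K C0 w T J ζ hFr hB hRg E κ₀ hκ hG
  obtain ⟨-, -, -, -, haf, ha1, hah, ha0⟩ := hE1 X.Ix E κ₀ hκ
  have hnz : ∀ (s : Fin c) (i : Fin 6), Af E (fun v : X.Ix → ℂ => nz (cZ X ζ v s) i) := by
    intro s i
    have hz := af_cZ X T J ζ E hG s
    have hp := (haf _ _ hah hz).1
    have hm := (haf _ _ hah hz).2
    have e1 : (fun v : X.Ix → ℂ => 1 / 2 + cZ X ζ v s / 2) =
        fun v => 1 / 2 + 1 * cZ X ζ v s / 2 := by
      funext v; ring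
    have e2 : (fun v : X.Ix → ℂ => 1 / 2 - cZ X ζ v s / 2) =
        fun v => 1 / 2 + -1 * cZ X ζ v s / 2 := by
      funext v; ring
    rw [e1] at hp
    rw [e2] at hm
    fin_cases i
    · exact hm
    · exact hp
    · exact hp
    · exact hp
    · exact hm
    · exact hm
  have hlf : ∀ (s : Fin c) (i : Fin 6),
      Af E (fun v : X.Ix → ℂ => lf (X.v (cT X T v) (cJ X J v) s) i) := by
    intro s i
    have hv := af_v X T J ζ E hG s
    fin_cases i
    · exact hv 0
    · exact hv 3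
    · exact (haf _ _ (hv 0) (hv 3)).1
    · exact hv 2
    · exact (haf _ _ (hv 1) (hv 3)).2
    · exact (haf _ _ (hv 2) (haf _ _ (hv 1) (hv 3)).2).1
  have hPE : ∀ s : Fin c, JJ E κ₀ (-1) 2
      (fun v : X.Ix → ℂ => PE (X.α s) (X.v (cT X T v) (cJ X J v) s) (cZ X ζ v s)) := by
    intro s
    unfold PE
    refine jj_sum hκ _ _ ?_
    intro i _
    by_cases hi : ctr (X.α s) i = 0
    · simp only [if_pos hi]
      exact jj_const hκ 0
    · simp only [if_neg hi]
      unfold Pool.Agent.Q99.HT.LT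
      have hs := hRg s
      have hv : X.v T J s ∈ Metric.closedBall (vC (X.α s)) r :=
        Metric.ball_subset_closedBall hs.1
      refine jj_sub hκ (jj_sub hκ ?_ ?_) ?_
      · apply jj_LC hT2 hLC hκ (hnz s i)
        rw [cZ_zero]
        exact nz_St (hB s) hs.2 i
      · apply jj_LC hT2 hLC hκ ((haf _ _ (hnz s i) (hlf s i)).2)
        rw [cZ_zero, cT_zero, cJ_zero]
        exact nl_St (hFr s) (hB s) hv hs.2 hi
      · apply jj_LC hT2 hLC hκ (hlf s i)
        rw [cT_zero, cJ_zero]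
        exact lf_St (hFr s) (hB s) hv hi
  have hquad : ∀ s : Fin c, JJ E κ₀ (-1) 2
      (fun v : X.Ix → ℂ => Complex.I * Real.pi * w s * cZ X ζ v s ^ 2 / 4 +
        Complex.I * Real.pi * cZ X ζ v s) := by
    intro s
    have h := hT2b X.Ix E κ₀ hκ (Complex.I * Real.pi * ζ s) (Complex.I * Real.pi) (ζ s)
      ((w s : ℚ) / 8) (Sum.elim (fun _ => 0) (Sum.elim (fun _ => 0)
        (fun s' => if s' = s then 1 else 0)))
    have e : (fun v : X.Ix → ℂ => Complex.I * Real.pi * w s * cZ X ζ v s ^ 2 / 4 +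
        Complex.I * Real.pi * cZ X ζ v s) = fun v : X.Ix → ℂ =>
        Complex.I * Real.pi * ζ s + Complex.I * Real.pi *
          lin (Sum.elim (fun _ => 0) (Sum.elim (fun _ => 0)
            (fun s' => if s' = s then 1 else 0))) v +
        (((w s : ℚ) / 8 : ℚ) : ℂ) * pI * (ζ s + lin (Sum.elim (fun _ => 0) (Sum.elim (fun _ => 0)
            (fun s' => if s' = s then 1 else 0))) v) ^ 2 := by
      funext v
      have hl : lin (Sum.elim (fun _ => 0) (Sum.elim (fun _ => 0)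
            (fun s' => if s' = s then 1 else 0))) v = v (.inr (.inr s)) := by
        unfold lin
        rw [Fintype.sum_sum_type, Fintype.sum_sum_type]
        simp only [Sum.elim_inl, Sum.elim_inr]
        simp only [Rat.cast_zero, zero_mul, Finset.sum_const_zero, zero_add]
        rw [Finset.sum_eq_single s]
        · rw [if_pos rfl]
          simp
        · intro b _ hb
          rw [if_neg hb]
          simp
        · intro h
          exact absurd (Finset.mem_univ s) h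
      rw [hl]
      unfold cZ pI
      push_cast
      ring
    rw [e]
    exact h
  unfold qq
  refine jj_sub hκ ?_ (jj_const hκ _)
  unfold Nw.Ph
  refine jj_sum hκ _ _ ?_
  intro s _
  have e : (fun v : X.Ix → ℂ => PE (X.α s) (X.v (cT X T v) (cJ X J v) s) (cZ X ζ v s) +
      Complex.I * Real.pi * w s * cZ X ζ v s ^ 2 / 4 + Complex.I * Real.pi * cZ X ζ v s) =
      fun v : X.Ix → ℂ => PE (X.α s) (X.v (cT X T v) (cJ X J v) s) (cZ X ζ v s) +
        (Complex.I * Real.pi * w s * cZ X ζ v s ^ 2 / 4 +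
        Complex.I * Real.pi * cZ X ζ v s) := by
    funext v
    ring
  rw [e]
  exact jj_add hκ (hPE s) (hquad s)

end Pool.Agent.H653.AR.Q
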